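import Pool.Agent.Helper12.GM.Stmts

/-! # Module SHELL: the sum of `F` over shells is bounded -/

open scoped ENNReal UpperHalfPlane MatrixGroups Topology
open UpperHalfPlane Real Filter

namespace Pool.Agent.Helper12.GM

theorem shell_core {Γ : Type} [Group Γ] (Q : Geo Γ) (F : Γ → ℝ) (hF : GF Q F)
    (c₁ Cf : ℝ) (hc₁ : ∀ f ∈ Q.F, (F f)⁻¹ ≤ c₁) (hCf : ∀ f ∈ Q.F, Q.L f ≤ Cf)
    (t : ℝ) (T : Finset Γ) (hT : ∀ g ∈ T, t ≤ Q.L g ∧ Q.L g ≤ t + 1) (s : ℝ) (hs : 0 < s) :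
    ∑ g ∈ T, F g ≤ c₁ * (((Q.fin (2 * Q.C + Cf + 1)).toFinset.card * Q.F.card : ℕ) : ℝ) *
      Real.exp (s * (t + 1 + Cf)) := by
  classical
  set N : ℕ := (Q.fin (2 * Q.C + Cf + 1)).toFinset.card * Q.F.card with hN
  choose f hfF hf using Q.conn
  set G : Γ → ℝ := fun g => F g * Real.exp (-s * Q.L g) with hG
  have hGs : Summable G := hF.zfin s hs
  have hGnn : ∀ g, 0 ≤ G g := fun g => mul_nonneg (hF.pos g).le (Real.exp_pos _).le
  have hc₁nn : 0 ≤ c₁ := le_trans (inv_nonneg.2 (hF.pos _).le) (hc₁ _ (hfF 1 1))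
  -- pointwise bound
  have hpt : ∀ g ∈ T, ∀ h, F g * G h ≤ c₁ * Real.exp (s * (t + 1 + Cf)) * G (g * f g h * h) := by
    intro g hg h
    have h1 : F g * F h ≤ c₁ * F (g * f g h * h) := by
      have h2 : F g * F (f g h) * F h ≤ F (g * f g h * h) :=
        (mul_le_mul_of_nonneg_right (hF.mul _ _) (hF.pos h).le).trans (hF.mul _ _)
      have h3 := hF.pos (f g h)
      have h4 : F g * F h = (F (f g h))⁻¹ * (F g * F (f g h) * F h) := by
        field_simp
      rw [h4]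
      exact mul_le_mul (hc₁ _ (hfF g h)) h2
        (mul_nonneg (mul_nonneg (hF.pos _).le (hF.pos _).le) (hF.pos _).le) hc₁nn
    have h5 : Q.L (g * f g h * h) ≤ t + 1 + Cf + Q.L h := by
      have := Q.mul (g * f g h) h
      have h6 := Q.mul g (f g h)
      have h7 := hCf _ (hfF g h)
      have h8 := (hT g hg).2
      linarith
    have h9 : Real.exp (-s * Q.L h) ≤
        Real.exp (s * (t + 1 + Cf)) * Real.exp (-s * Q.L (g * f g h * h)) := by
      rw [← Real.exp_add]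
      apply Real.exp_le_exp.2
      nlinarith
    calc F g * G h = (F g * F h) * Real.exp (-s * Q.L h) := by rw [hG]; ring
      _ ≤ (c₁ * F (g * f g h * h)) *
          (Real.exp (s * (t + 1 + Cf)) * Real.exp (-s * Q.L (g * f g h * h))) :=
          mul_le_mul h1 h9 (Real.exp_pos _).le (mul_nonneg hc₁nn (hF.pos _).le)
      _ = c₁ * Real.exp (s * (t + 1 + Cf)) * G (g * f g h * h) := by rw [hG]; ring
  -- the fibres
  have hfib : ∀ (H : Finset Γ) (k : Γ),
      ((T ×ˢ H).filter fun p => p.1 * f p.1 p.2 * p.2 = k).card ≤ N := by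
    intro H k
    rcases Finset.eq_empty_or_nonempty
      ((T ×ˢ H).filter fun p => p.1 * f p.1 p.2 * p.2 = k) with he | ⟨p0, hp0⟩
    · rw [he]; simp
    · rw [Finset.mem_filter, Finset.mem_product] at hp0
      rw [hN, ← Finset.card_product]
      have hkey : ∀ p ∈ (T ×ˢ H).filter (fun p => p.1 * f p.1 p.2 * p.2 = k),
          Q.L p.1 + Q.L (p.1⁻¹ * k) ≤ Q.L k + Q.C + Cf := by
        intro p hp
        rw [Finset.mem_filter, Finset.mem_product] at hp
        have h1 : p.1⁻¹ * k = f p.1 p.2 * p.2 := by rw [← hp.2]; group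
        rw [h1]
        have h2 := Q.mul (f p.1 p.2) p.2
        have h3 := hCf _ (hfF p.1 p.2)
        have h4 := hf p.1 p.2
        rw [hp.2] at h4
        linarith
      refine Finset.card_le_card_of_injOn (fun p => (p0.1⁻¹ * p.1, f p.1 p.2)) ?_ ?_
      · intro p hp
        have hp1 := Finset.mem_coe.1 hp
        have hk1 := hkey p hp1
        have hk0 := hkey p0 (Finset.mem_filter.2 ⟨Finset.mem_product.2 hp0.1, hp0.2⟩)
        rw [Finset.mem_filter, Finset.mem_product] at hp1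
        rw [Finset.mem_coe, Finset.mem_product]
        refine ⟨?_, hfF _ _⟩
        rw [Set.Finite.mem_toFinset]
        change Q.L (p0.1⁻¹ * p.1) ≤ 2 * Q.C + Cf + 1
        have h4 := Q.four 1 p0.1 k p.1
        have h5 : Q.L (k⁻¹ * p.1) = Q.L (p.1⁻¹ * k) := by
          rw [← Q.inv (k⁻¹ * p.1)]
          congr 1
          group
        rw [h5, inv_one, one_mul, one_mul, one_mul] at h4
        have h6 := hT _ hp1.1.1
        have h7 := hT _ hp0.1.1
        have h8 : max (Q.L p0.1 + Q.L (p.1⁻¹ * k)) (Q.L p.1 + Q.L (p0.1⁻¹ * k)) ≤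
            Q.L k + Q.C + Cf + 1 := by
          apply max_le
          · linarith [h6.1, h7.2]
          · linarith [h6.2, h7.1]
        linarith
      · intro p hp q hq hpq
        have hp1 := (Finset.mem_filter.1 (Finset.mem_coe.1 hp)).2
        have hq1 := (Finset.mem_filter.1 (Finset.mem_coe.1 hq)).2
        have hpq1 : p0.1⁻¹ * p.1 = p0.1⁻¹ * q.1 := congrArg Prod.fst hpq
        have hpq2 : f p.1 p.2 = f q.1 q.2 := congrArg Prod.snd hpq
        have h1 : p.1 = q.1 := mul_left_cancel hpq1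
        have h2 : p.1 * f p.1 p.2 * p.2 = p.1 * f p.1 p.2 * q.2 := by
          calc p.1 * f p.1 p.2 * p.2 = k := hp1
            _ = q.1 * f q.1 q.2 * q.2 := hq1.symm
            _ = p.1 * f p.1 p.2 * q.2 := by rw [hpq2, h1]
        exact Prod.ext h1 (mul_left_cancel h2)
  -- summation
  set A : ℝ := ∑ g ∈ T, F g with hA
  set B : ℝ := c₁ * Real.exp (s * (t + 1 + Cf)) * N with hB
  have hsum : ∀ H : Finset Γ, ∑ h ∈ H, A * G h ≤ B * ∑' g, G g := by
    intro H
    have hE : 0 ≤ c₁ * Real.exp (s * (t + 1 + Cf)) := mul_nonneg hc₁nn (Real.exp_pos _).le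
    calc ∑ h ∈ H, A * G h = ∑ p ∈ T ×ˢ H, F p.1 * G p.2 := by
          rw [← Finset.mul_sum, hA, Finset.sum_mul_sum, Finset.sum_product]
      _ ≤ ∑ p ∈ T ×ˢ H, c₁ * Real.exp (s * (t + 1 + Cf)) * G (p.1 * f p.1 p.2 * p.2) :=
          Finset.sum_le_sum fun p hp => hpt p.1 (Finset.mem_product.1 hp).1 p.2
      _ = c₁ * Real.exp (s * (t + 1 + Cf)) * ∑ p ∈ T ×ˢ H, G (p.1 * f p.1 p.2 * p.2) := by
          rw [Finset.mul_sum]
      _ = c₁ * Real.exp (s * (t + 1 + Cf)) *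
          ∑ k ∈ (T ×ˢ H).image (fun p => p.1 * f p.1 p.2 * p.2),
            ((T ×ˢ H).filter fun p => p.1 * f p.1 p.2 * p.2 = k).card • G k := by
          rw [Finset.sum_comp G (fun p : Γ × Γ => p.1 * f p.1 p.2 * p.2)]
      _ ≤ c₁ * Real.exp (s * (t + 1 + Cf)) *
          ∑ k ∈ (T ×ˢ H).image (fun p => p.1 * f p.1 p.2 * p.2), N * G k := by
          refine mul_le_mul_of_nonneg_left (Finset.sum_le_sum fun k _ => ?_) hE
          rw [nsmul_eq_mul]
          exact mul_le_mul_of_nonneg_right (Nat.cast_le.2 (hfib H k)) (hGnn k)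
      _ = B * ∑ k ∈ (T ×ˢ H).image (fun p => p.1 * f p.1 p.2 * p.2), G k := by
          rw [← Finset.mul_sum, hB]; ring
      _ ≤ B * ∑' g, G g := by
          refine mul_le_mul_of_nonneg_left (hGs.sum_le_tsum _ fun k _ => hGnn k) ?_
          exact mul_nonneg hE (Nat.cast_nonneg _)
  have hfin : A * ∑' g, G g ≤ B * ∑' g, G g :=
    hasSum_le_of_sum_le (hGs.hasSum.mul_left A) hsum
  have hZ : 0 < ∑' g, G g := by
    have h1 : G 1 ≤ ∑' g, G g := hGs.le_tsum 1 fun k _ => hGnn k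
    have h2 : 0 < G 1 := mul_pos (hF.pos 1) (Real.exp_pos _)
    linarith
  have := le_of_mul_le_mul_right hfin hZ
  calc A ≤ B := this
    _ = c₁ * (N : ℝ) * Real.exp (s * (t + 1 + Cf)) := by rw [hB]; ring

theorem st_SHELL : ST_SHELL := by
  intro Γ _ Q F hF
  classical
  set c₁ : ℝ := ∑ f ∈ Q.F, (F f)⁻¹ with hc₁
  set Cf : ℝ := ∑ f ∈ Q.F, Q.L f with hCf
  have h1 : ∀ f ∈ Q.F, (F f)⁻¹ ≤ c₁ := fun f hf =>
    Finset.single_le_sum (f := fun f => (F f)⁻¹) (fun g _ => inv_nonneg.2 (hF.pos g).le) hf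
  have h2 : ∀ f ∈ Q.F, Q.L f ≤ Cf := fun f hf =>
    Finset.single_le_sum (f := fun f => Q.L f) (fun g _ => Q.nonneg g) hf
  refine ⟨c₁ * (((Q.fin (2 * Q.C + Cf + 1)).toFinset.card * Q.F.card : ℕ) : ℝ), ?_⟩
  intro t T hT
  have h3 := fun s hs => shell_core Q F hF c₁ Cf h1 h2 t T hT s hs
  have h4 : Tendsto (fun s : ℝ =>
      c₁ * (((Q.fin (2 * Q.C + Cf + 1)).toFinset.card * Q.F.card : ℕ) : ℝ) *
        Real.exp (s * (t + 1 + Cf))) (𝓝[>] 0)
      (𝓝 (c₁ * (((Q.fin (2 * Q.C + Cf + 1)).toFinset.card * Q.F.card : ℕ) : ℝ) *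
        Real.exp (0 * (t + 1 + Cf)))) := by
    refine Tendsto.mono_left (Continuous.tendsto ?_ 0) nhdsWithin_le_nhds
    fun_prop
  rw [zero_mul, Real.exp_zero, mul_one] at h4
  refine ge_of_tendsto h4 ?_
  filter_upwards [self_mem_nhdsWithin] with s hs
  exact h3 s hs

end Pool.Agent.Helper12.GM
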